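import Pool.Agent.WL.Defs
import Pool.Agent.WEt.LightFam

/-!
# Conversion of `WL.Coh` to `WEt.Coh` (MP_cb388a_ag, helper51)
-/

set_option autoImplicit false

open TensorProduct Polynomial

noncomputable section

namespace WL

/-- conversion -/
def Grp.old (A : Grp) : WEt.Ab := ⟨A.T⟩

/-- conversion -/
def Mdl.old {ℓ : Nat.Primes} (M : Mdl (ℓ : ℕ)) : WEt.Zl ℓ := ⟨M.T⟩

/-- conversion -/
def Weil.old (W : Weil) : WEt.Weil where
  C i := (W.C i).old
  H i := (W.H i).old
  F i := AddMonoidHom.mk' (W.F i) (W.add i).1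
  inc i := AddMonoidHom.mk' (W.inc i) (W.add i).2.1
  res i := AddMonoidHom.mk' (W.res i) (W.add i).2.2
  inc_ker i := (W.exact i).1
  exact i := (W.exact i).2.1
  res_image i := (W.exact i).2.2
  orbit := W.orbit

/-- conversion -/
def Adic.old {ℓ : Nat.Primes} (E : Adic (ℓ : ℕ)) : WEt.Adic ℓ where
  C i := (E.C i).old
  H i := (E.H i).old
  F i := IsLinearMap.mk' (E.F i) (E.lin i).1
  inc i := IsLinearMap.mk' (E.inc i) (E.lin i).2.1
  res i := IsLinearMap.mk' (E.res i) (E.lin i).2.2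
  inc_ker i := (E.exact i).1
  exact i := (E.exact i).2.1
  res_image i := (E.exact i).2.2
  finite := E.finite

/-- conversion -/
def Comparison.old {ℓ : Nat.Primes} {W : Weil} {E : Adic (ℓ : ℕ)} (c : Comparison W E) :
    WEt.Comparison W.old E.old where
  cC i := AddMonoidHom.mk' (c.cC i) (c.add i).1
  cH i := AddMonoidHom.mk' (c.cH i) (c.add i).2.1
  comm_inc := c.comm
  comm_res := c.comm'
  Q i := (c.Q i).old
  q i := AddMonoidHom.mk' (c.q i) (c.add i).2.2.1
  δ i := AddMonoidHom.mk' (c.δ i) (c.add i).2.2.2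
  exact_q i := (c.exact i).1
  exact_δ i := (c.exact i).2.1
  exact_c i := (c.exact i).2.2
  divisible i := by
    have h := c.divisible i
    have e : (fun y : ((c.Q i).old).T => ((ℓ : ℕ) : ℕ) • y) =
        (times ((ℓ : ℕ) : ℤ) : (c.Q i).T → (c.Q i).T) := by
      funext y
      exact (natCast_zsmul (G := (c.Q i).T) y (ℓ : ℕ)).symm
    rw [e]
    exact h

/-- conversion -/
def Groups.old (X : Groups) : WEt.Groups where
  p := ⟨X.p, X.prime.out⟩
  d := X.d
  W n := (X.W n).old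
  E ℓ n := (X.E ℓ n).old
  c ℓ n := (X.c ℓ n).old

theorem ne_p {X : Groups} {ℓ : Nat.Primes} (h : ℓ ≠ X.old.p) : (ℓ : ℕ) ≠ X.p :=
  fun e => h (Subtype.ext e)

theorem tors_iff {A : Type} [AddCommGroup A] (x : A) : Tors x ↔ WEt.Tors x := Iff.rfl

/-- conversion -/
def Weights.old {X : Groups} (W : Weights X) : WEt.Weights X.old where
  finite ℓ h n i := W.finite ℓ (ne_p h) n i
  gabber n i := by
    obtain ⟨m, hm⟩ := W.gabber n i
    have hf : {ℓ : Nat.Primes | (ℓ : ℕ) ≤ m}.Finite :=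
      Set.Finite.preimage (f := fun ℓ : Nat.Primes => (ℓ : ℕ))
        Subtype.val_injective.injOn (Set.finite_Iic m)
    refine ⟨hf.toFinset, fun ℓ hℓ x hx => ?_⟩
    rw [Set.Finite.mem_toFinset, Set.mem_ofPred_eq, not_le] at hℓ
    exact hm ℓ hℓ x hx
  P := W.P
  charpoly ℓ h n i hfin := by
    have h1 : Module.Finite ℤ_[(ℓ : ℕ)] ((X.E ℓ n).C i).T := hfin
    exact W.charpoly ℓ (ne_p h) n i
      (IsLinearMap.mk' ((X.E ℓ n).F i) ((X.E ℓ n).lin i).1) fun _ => rfl
  P_one := W.P_one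
  P_big := W.P_big
  tors_p := W.tors_p
  rank_p n := W.rank_p n (2 * (n : ℤ)) (Or.inl rfl)
  rank_p' n := W.rank_p n (2 * (n : ℤ) + 1) (Or.inr rfl)
  deg_zero ℓ := W.deg_zero ℓ

/-- conversion -/
def Duality.old {X : Groups} {n m : ℕ} (D : Duality X n m) : WEt.Duality X.old n m where
  pair := AddMonoidHom.mk' (fun x => AddMonoidHom.mk' (D.pair x) (D.add' x))
    fun x x' => AddMonoidHom.ext fun y => D.add y x x'
  pairE ℓ :=
    { ap := D.pairE ℓ
      add_left := fun x x' y => (D.lin ℓ y).map_add x x'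
      smul_left := fun a x y => (D.lin ℓ y).map_smul a x
      add_right := fun x y y' => (D.lin' ℓ x).map_add y y'
      smul_right := fun a x y => (D.lin' ℓ x).map_smul a y }
  comm ℓ x y := D.comm ℓ x y
  ker ℓ h x hx := D.ker ℓ (ne_p h) x hx

/-- conversion -/
def Lefschetz.old {X : Groups} {n m : ℕ} (D : Lefschetz X n m) : WEt.Lefschetz X.old n m where
  lef := AddMonoidHom.mk' D.lef D.add
  lefE ℓ := IsLinearMap.mk' (D.lefE ℓ) (D.lin ℓ)
  comm ℓ x := D.comm ℓ x
  coker ℓ h y := by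
    obtain ⟨N, hN, x, hx⟩ := D.coker ℓ (ne_p h) y
    exact ⟨N, hN, x, hx⟩

/-- conversion -/
def Coh.old (X : Coh) : WEt.Coh where
  toGroups := X.toGroups.old
  weights := X.weights.old
  duality n m e := (X.duality n m e).old
  lefschetz n m e h := (X.lefschetz n m e h).old

theorem Coh.L_old (X : Coh) (n : ℕ) : X.L n ↔ X.old.L n := Iff.rfl

end WL

end
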