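import Pool.Agent.WL.Classes
import Pool.Agent.WL.Conv
import Pool.Agent.HL.WlConv
import Pool.Agent.WAG.LCH

/-!
# Conversion of `WL.Classes` to `MotP.GGap.Chow` (MP_cb388a_ag, helper51; adapted from `HL/WlConv.lean`)
-/

set_option autoImplicit false

open CategoryTheory MonoidalCategory CartesianMonoidalCategory Limits
open MotP.GGap (Acts IsFrob Exterior Cycles)

universe x

noncomputable section

namespace WL

open CHS

variable {V : Type} [Category.{0} V] [CartesianMonoidalCategory V] {T : ChowTheory.{0, 0, 0} V}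

theorem one_times {A : Grp} (n : ℤ) (x : A.T) :
    (one (times n x) : Rat A) = n • one x :=
  TensorProduct.tmul_smul n (1 : ℚ) x

theorem oneE_times {ℓ : ℕ} [Fact ℓ.Prime] {M : Mdl ℓ} (n : ℤ)
    (x : M.T) : (oneE (times n x) : RatE M) = n • oneE x := by
  exact map_zsmul (TensorProduct.mk ℤ_[ℓ] ℚ_[ℓ] M.T 1) n x

/-- a correspondence of degree `0` as an endomorphism of the motive -/
def back {X : V} (a : T.CH (X ⊗ X)) (ha : a ∈ T.cyc (X ⊗ X) (T.dim X)) :
    End (CHM.Mot.h T.toOld X 0) :=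
  (CHM.Mot.endEquiv T.toOld X 0 ⟨a, ha⟩ : CHM.Mot.h T.toOld X 0 ⟶ CHM.Mot.h T.toOld X 0)

theorem back_val {X : V} (a : T.CH (X ⊗ X)) (ha : a ∈ T.cyc (X ⊗ X) (T.dim X)) :
    (back a ha).1 = a := rfl

theorem IsAction.zero {X : V} {R M : Type} [Ring R] [AddCommGroup M] [Module R M]
    {act : T.CH (X ⊗ X) → M → M} (h : IsAction T X R act) (x : M) : act 0 x = 0 := by
  have h0 : (0 : T.CH (X ⊗ X)) ∈ T.cyc (X ⊗ X) (T.dim X) := (T.gr _ _).zero_mem
  have h1 := h.add 0 h0 0 h0 x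
  rw [add_zero] at h1
  exact left_eq_add.1 h1

/-- an action of correspondences as a ring homomorphism -/
def IsAction.hom {X : V} {R M : Type} [CommRing R] [AddCommGroup M] [Module R M]
    {act : T.CH (X ⊗ X) → M → M} (h : IsAction T X R act) :
    End (CHM.Mot.h T.toOld X 0) →+* Module.End R M where
  toFun f := IsLinearMap.mk' (act f.1) (h.lin f.1)
  map_one' := LinearMap.ext fun x => h.one x
  map_mul' f g := LinearMap.ext fun x =>
    h.comp g.1 (CorrAlg.end_mem g) f.1 (CorrAlg.end_mem f) x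
  map_zero' := LinearMap.ext fun x => h.zero x
  map_add' f g := LinearMap.ext fun x =>
    h.add f.1 (CorrAlg.end_mem f) g.1 (CorrAlg.end_mem g) x

namespace Classes

variable {K : Cohomology.{0, 0, 0, x} T} (G : Classes K)

theorem dim (X : G.U) : T.dim (G.v X) = (G.coh X).d := (G.corr X).dim

/-- the cycle class -/
abbrev cl (X : G.U) (n : ℕ) : T.CH (G.v X) → Rat (((G.coh X).W n).C (2 * n)) := (G.corr X).cl n

/-- the action -/
abbrev act (X : G.U) (n : ℕ) (i : ℤ) : T.CH (G.v X ⊗ G.v X) → Rat (((G.coh X).W n).C i) →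
    Rat (((G.coh X).W n).C i) := (G.corr X).act n i

/-- the action -/
abbrev actE (X : G.U) (ℓ : ℕ) [Fact ℓ.Prime] (n : ℕ) (i : ℤ) : T.CH (G.v X ⊗ G.v X) →
    RatE (((G.coh X).E ℓ n).C i) → RatE (((G.coh X).E ℓ n).C i) := (G.corr X).actE ℓ n i

theorem pow_mem (X : G.U) (r : ℕ) : ∃ Z, G.v Z = pow (G.v X) r := by
  induction r with
  | zero => exact G.point
  | succ r ih =>
    obtain ⟨Z, hZ⟩ := ih
    obtain ⟨Y, hY⟩ := G.prod Z X
    refine ⟨Y, hY.trans ?_⟩
    rw [hZ]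
    unfold pow
    exact (Function.iterate_succ_apply' (fun Y : V => Y ⊗ G.v X) r (𝟙_ V)).symm

/-- the powers -/
def pw (X : G.U) (r : ℕ) : G.U := (G.pow_mem X r).choose

theorem v_pw (X : G.U) (r : ℕ) : G.v (G.pw X r) = pow (G.v X) r := (G.pow_mem X r).choose_spec

/-- the action of the endomorphisms of the motive -/
def acts (X : G.U) : Acts (MotP.GGap.endo (CHM.Mot.h T.toOld (G.v X) 0))
    (G.coh X).toGroups.old where
  act n i := ((G.corr X).action n i).hom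
  actE ℓ h n i := ((G.corr X).actionE ℓ (ne_p h) n i).hom

theorem dim_pw (X : G.U) (r : ℕ) : (G.coh (G.pw X r)).d = r * (G.coh X).d := by
  have h1 := G.dim (G.pw X r)
  rw [v_pw, ChowTheory.dim_pow, G.dim X] at h1
  exact_mod_cast h1.symm

/-- the isomorphism of the square with the second power -/
theorem exists_iso (X : G.U) : ∃ (e : G.v (G.pw X 2) ⟶ G.v X ⊗ G.v X)
    (e' : G.v X ⊗ G.v X ⟶ G.v (G.pw X 2)), e' ≫ e = 𝟙 _ := by
  have h1 : (λ_ (G.v X)).inv ▷ G.v X ≫ (λ_ (G.v X)).hom ▷ G.v X = 𝟙 (G.v X ⊗ G.v X) := by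
    rw [← comp_whiskerRight, Iso.inv_hom_id, id_whiskerRight]
  have h2 : ∃ (e : pow (G.v X) 2 ⟶ G.v X ⊗ G.v X)
    (e' : G.v X ⊗ G.v X ⟶ pow (G.v X) 2), e' ≫ e = 𝟙 _ :=
    ⟨((λ_ (G.v X)).hom ▷ G.v X), ((λ_ (G.v X)).inv ▷ G.v X), h1⟩
  rw [v_pw]
  exact h2

/-- the cycle class of a correspondence -/
def cyc' (X : G.U) : End (CHM.Mot.h T.toOld (G.v X) 0) →+
    Rat (((G.coh (G.pw X 2)).W (G.coh X).d).C (2 * ((G.coh X).d : ℤ))) :=
  AddMonoidHom.mk' (fun f => G.cl (G.pw X 2) (G.coh X).d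
    (T.pull (G.exists_iso X).choose f.1)) fun f g =>
      (congrArg _ (T.pull_add _ (show T.CH (G.v X ⊗ G.v X) from f.1) g.1)).trans
        ((G.corr _).add _ _ _)

theorem mem' (X : G.U) (f : End (CHM.Mot.h T.toOld (G.v X) 0)) :
    T.pull (G.exists_iso X).choose f.1 ∈ T.cyc (G.v (G.pw X 2)) (G.coh X).d := by
  have h2 := CorrAlg.end_mem f
  rw [G.dim X] at h2
  exact T.pull_mem _ _ _ h2

theorem cyc'_inj (X : G.U) : Function.Injective (G.cyc' X) := by
  rw [injective_iff_map_eq_zero]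
  intro f hf
  have h1 : T.pull (G.exists_iso X).choose f.1 = 0 := (G.corr _).inj _ _ (G.mem' X f) hf
  obtain ⟨e', he⟩ := (G.exists_iso X).choose_spec
  have h3 : ∀ a : T.CH (G.v X ⊗ G.v X), T.pull (G.exists_iso X).choose a = 0 → a = 0 := by
    intro a ha
    have h4 : T.pull e' (T.pull (G.exists_iso X).choose a) = a := by
      rw [← T.pull_comp, he, T.pull_id]
    rw [ha, T.pull_zero] at h4
    exact h4.symm
  exact Subtype.ext (h3 f.1 h1)

/-- the cycle classes of correspondences -/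
def cycles (X : G.U) : Cycles (MotP.GGap.endo (CHM.Mot.h T.toOld (G.v X) 0))
    (G.coh (G.pw X 2)).toGroups.old (G.coh X).d where
  cyc := AddMonoidHom.toRatLinearMap (M := End (CHM.Mot.h T.toOld (G.v X) 0))
    (M₂ := Rat (((G.coh (G.pw X 2)).W (G.coh X).d).C (2 * ((G.coh X).d : ℤ)))) (G.cyc' X)
  inj := G.cyc'_inj X
  fixed f := (G.corr _).fix _ _ (G.mem' X f)

theorem exists_cyc (X : G.U) (n : ℕ) (z : (((G.coh X).W n).H (2 * n)).T) :
    ∃ a ∈ T.cyc (G.v X) n, G.cl X n a = one (((G.coh X).W n).res (2 * n) z) :=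
  (G.corr X).surj n _ ((((G.coh X).W n).exact (2 * n)).2.2 _ |>.1 ⟨z, rfl⟩)

/-- the image in `CH^n(X)_ℚ` of an element of `H^(2n)_W(X, ℤ(n))` -/
def zcyc (X : G.U) (n : ℕ) (z : (((G.coh X).W n).H (2 * n)).T) : T.CH (G.v X) :=
  (G.exists_cyc X n z).choose

theorem zcyc_mem (X : G.U) (n : ℕ) (z : (((G.coh X).W n).H (2 * n)).T) :
    G.zcyc X n z ∈ T.cyc (G.v X) n := (G.exists_cyc X n z).choose_spec.1

theorem zcyc_cl (X : G.U) (n : ℕ) (z : (((G.coh X).W n).H (2 * n)).T) :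
    G.cl X n (G.zcyc X n z) = one (((G.coh X).W n).res (2 * n) z) :=
  (G.exists_cyc X n z).choose_spec.2

theorem ext_mem (X : G.U) {n m : ℕ} (e : n + m = (G.coh X).d) {a b : T.CH (G.v X)}
    (ha : a ∈ T.cyc (G.v X) n) (hb : b ∈ T.cyc (G.v X) m) :
    ext T a b ∈ T.cyc (G.v X ⊗ G.v X) (T.dim (G.v X)) := by
  have h1 := T.mul_mem (T.pull_mem (fst (G.v X) (G.v X)) _ _ hb)
    (T.pull_mem (snd (G.v X) (G.v X)) _ _ ha)
  have h2 : (m : ℤ) + n = T.dim (G.v X) := by
    rw [G.dim X, ← e]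
    push_cast
    ring
  rw [h2] at h1
  exact h1

/-- exterior products -/
def ext' (X : G.U) (n m : ℕ) (e : n + m = (G.coh X).d) :
    Exterior (G.acts X) ((G.coh X).old.duality n m e) where
  ext z g := back (ext T (G.zcyc X n z) (G.zcyc X m g))
    (G.ext_mem X e (G.zcyc_mem X n z) (G.zcyc_mem X m g))
  act z g i hi := LinearMap.ext fun x => ((G.corr X).ext_act n m e z g _ (G.zcyc_mem X n z) _
    (G.zcyc_mem X m g) (G.zcyc_cl X n z) (G.zcyc_cl X m g)).1 i hi x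
  act' z g y := ((G.corr X).ext_act n m e z g _ (G.zcyc_mem X n z) _
    (G.zcyc_mem X m g) (G.zcyc_cl X n z) (G.zcyc_cl X m g)).2 y
  actE ℓ hℓ z g i hi := LinearMap.ext fun x => ((G.corr X).ext_actE ℓ (ne_p hℓ) n m e z g _
    (G.zcyc_mem X n z) _ (G.zcyc_mem X m g) (G.zcyc_cl X n z) (G.zcyc_cl X m g)).1 i hi x
  actE' ℓ hℓ z g y := ((G.corr X).ext_actE ℓ (ne_p hℓ) n m e z g _ (G.zcyc_mem X n z) _
    (G.zcyc_mem X m g) (G.zcyc_cl X n z) (G.zcyc_cl X m g)).2 y

theorem frob_val (X : G.U) :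
    (show End (CHM.Mot.h T.toOld (G.v X) 0) from
      Mot.component K.toOld.frobenius.F (CHM.Mot.h T.toOld (G.v X) 0)).1 =
      T.graph (T.Fr (G.v X)) := by
  have h1 := T.frob.onMot_val (CHM.Mot.h T.toOld (G.v X) 0)
  have h2 : (T.frob.onMot (CHM.Mot.h T.toOld (G.v X) 0)).1 =
      T.toOld.gr' (T.frob.Fr (G.v X)) := by
    rw [h1]
    change (T.frob.q : ℚ) ^ (-0 : ℤ) • T.toOld.cp (T.toOld.diag (G.v X))
      (T.toOld.gr' (T.frob.Fr (G.v X))) = _
    rw [neg_zero, zpow_zero, one_smul, T.toOld.diag_cp]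
  exact h2

theorem isFrob (X : G.U) : IsFrob (G.acts X) T.q
    (Mot.component K.toOld.frobenius.F (CHM.Mot.h T.toOld (G.v X) 0)) where
  act n i x := by
    have h := (G.corr X).frob n i x
    rw [one_times] at h
    have h1 : G.act X n i ((show End (CHM.Mot.h T.toOld (G.v X) 0) from
        Mot.component K.toOld.frobenius.F (CHM.Mot.h T.toOld (G.v X) 0)).1) (one x) =
        ((T.q : ℤ) ^ n) • one (((G.coh X).W n).F i x) := by
      rw [G.frob_val X]
      exact h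
    refine h1.trans ?_
    have h2 : ((T.q : ℤ) ^ n) = ((T.q ^ n : ℕ) : ℤ) := by push_cast; rfl
    rw [h2]
    exact natCast_zsmul _ _
  actE ℓ hℓ n i x := by
    have h := (G.corr X).frobE ℓ (ne_p hℓ) n i x
    rw [oneE_times] at h
    have h1 : G.actE X ℓ n i ((show End (CHM.Mot.h T.toOld (G.v X) 0) from
        Mot.component K.toOld.frobenius.F (CHM.Mot.h T.toOld (G.v X) 0)).1) (oneE x) =
        ((T.q : ℤ) ^ n) • oneE (((G.coh X).E ℓ n).F i x) := by
      rw [G.frob_val X]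
      exact h
    refine h1.trans ?_
    have h2 : ((T.q : ℤ) ^ n) = ((T.q ^ n : ℕ) : ℤ) := by push_cast; rfl
    rw [h2]
    exact natCast_zsmul _ _

/-- the structure on the class and the category of motives -/
def chow : MotP.GGap.Chow K.toOld.frobenius where
  p := ⟨(G.coh G.point.choose).p, (G.coh G.point.choose).prime.out⟩
  q := T.q
  q_pos := by have := T.one_lt; omega
  V := G.U
  coh X := (G.coh X).old
  char X := Subtype.ext (G.char X _)
  h X := CHM.Mot.h T.toOld (G.v X) 0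
  pow := G.pw
  kunneth X r := by
    rw [v_pw, ← pow_old, ← CHM.Mot.T_h]
    exact ⟨Iso.refl _⟩
  dim := G.dim_pw
  acts := G.acts
  frob := G.isFrob
  ext := G.ext'
  lefschetz X ℓ hℓ n a ha := by
    have h1 := (G.corr X).lefschetz ℓ (ne_p hℓ) n a.1 (CorrAlg.end_mem a) fun i h0 h2 x =>
      LinearMap.congr_fun (ha i h0 h2) x
    obtain ⟨b, hb⟩ := (CHM.Mot.endEquiv T.toOld (G.v X) 0).surjective a
    rw [← hb, CHM.Mot.numTrivial_end, T.numTrivial_num]
    have h2 : b.1 = a.1 := congrArg Subtype.val hb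
    rw [h2]
    exact h1
  cycles := G.cycles
  betti X ℓ hℓ n i := by
    rw [WeilCoh.number_motive]
    exact (G.corr X).betti ℓ (fun e => hℓ (Subtype.ext (e.trans (G.char X _)))) n i

/-- every cycle has a multiple which comes from Weil-etale cohomology -/
theorem exists_mul (X : G.U) (n : ℕ) (a : T.CH (G.v X))
    (ha : a ∈ T.cyc (G.v X) n) : ∃ (k : ℤ) (z : (((G.coh X).W n).H (2 * n)).T), k ≠ 0 ∧
      G.zcyc X n z = k • a := by
  obtain ⟨k, hk, x, hx⟩ := WeilCoh.exists_one_aux (A := (((G.coh X).W n).C (2 * n)).T) (G.cl X n a)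
  obtain ⟨N, hN, hNx⟩ := (G.corr X).fix n a ha k x hx
  have hadd := (((G.coh X).W n).add (2 * n)).1
  have h1 : ((G.coh X).W n).F (2 * n) (N • x) = N • x := by
    rw [smul_sub, sub_eq_zero] at hNx
    exact (map_zsmul (AddMonoidHom.mk' (((G.coh X).W n).F (2 * n)) hadd) N x).trans hNx
  obtain ⟨z, hz⟩ : ∃ z, ((G.coh X).W n).res (2 * n) z = N • x :=
    (((G.coh X).W n).exact (2 * n)).2.2 _ |>.2 h1
  have hka : (N * k) • a ∈ T.gr (G.v X) n := by
    rw [← Int.cast_smul_eq_zsmul ℚ]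
    exact Submodule.smul_mem _ _ ha
  refine ⟨N * k, z, mul_ne_zero hN hk, ?_⟩
  have hcl : ∀ u w : T.CH (G.v X), G.cl X n (u + w) = G.cl X n u + G.cl X n w := (G.corr X).add n
  have h3 : G.cl X n ((N * k) • a) = (N * k) • G.cl X n a :=
    map_zsmul (AddMonoidHom.mk' (G.cl X n) hcl) (N * k) a
  have h2 : G.cl X n (G.zcyc X n z) = G.cl X n ((N * k) • a) := by
    rw [zcyc_cl, hz, h3, mul_smul]
    exact (one_times N x).trans (congrArg (fun t => N • t) hx.symm)
  have h6 := (G.corr X).inj n (G.zcyc X n z - (N * k) • a)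
    (Submodule.sub_mem _ (G.zcyc_mem X n z) hka) (by
      have h7 := map_sub (AddMonoidHom.mk' (G.cl X n) hcl) (G.zcyc X n z) ((N * k) • a)
      exact h7.trans (sub_eq_zero.2 h2))
  exact sub_eq_zero.1 h6

/-- the Lefschetz motive -/
theorem lef : Pool.Agent.WAV.Lef G.chow (CHM.Mot.lef T.toOld) := by
  intro X n m e r s
  obtain ⟨φ⟩ := CHM.Mot.T_lef T.toOld n
  obtain ⟨a, ha, b, hb, hab⟩ := CHM.Mot.factor T.toOld (E := G.v X) (n := (n : ℤ))
    (r ≫ φ.hom) (φ.inv ≫ s)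
  have hrs : (r ≫ φ.hom) ≫ (φ.inv ≫ s) = r ≫ s := by simp
  have hab' : (show CHM.Mot.h T.toOld (G.v X) 0 ⟶ CHM.Mot.h T.toOld (G.v X) 0 from r ≫ s).1 =
      T.toOld.pull (fst (G.v X) (G.v X)) b * T.toOld.pull (snd (G.v X) (G.v X)) a :=
    (congrArg Subtype.val hrs).symm.trans hab
  have hm : T.dim (G.v X) - (n : ℤ) = (m : ℤ) := by
    rw [G.dim X]
    have e' : n + m = (G.coh X).d := e
    rw [← e']
    push_cast
    ring
  have hb' : b ∈ T.cyc (G.v X) m := by
    have h := hb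
    change b ∈ T.gr (G.v X) (T.dim (G.v X) - (n : ℤ)) at h
    rw [hm] at h
    exact h
  obtain ⟨k, z, hk, hz⟩ := G.exists_mul X n a ha
  obtain ⟨l, g, hl, hg⟩ := G.exists_mul X m b hb'
  refine ⟨k * l, z, g, mul_ne_zero hk hl, ?_⟩
  have h1 : ext T (G.zcyc X n z) (G.zcyc X m g) = (k * l) •
      (T.pull (fst (G.v X) (G.v X)) b * T.pull (snd (G.v X) (G.v X)) a) := by
    rw [hz, hg]
    exact ChowTheory.ext_smul T k l a b
  have h3 := zsmul_val (T := T.toOld) (k * l)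
    (show CHM.Mot.h T.toOld (G.v X) 0 ⟶ CHM.Mot.h T.toOld (G.v X) 0 from r ≫ s)
  apply Subtype.ext
  exact (h1.trans (congrArg (fun t => (k * l) • t) hab'.symm)).trans h3.symm

end Classes

end WL

end
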