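import Pool.Agent.WL.Defs
import Pool.Agent.CHS.Coh

/-!
# Chow groups and Weil-etale motivic cohomology: definitions (MP_cb388a_ag, helper51)

`T` are the Chow groups of the smooth projective varieties over a finite field, `K` is a cohomology
theory (`l`-adic cohomology, with complex coefficients). `Classes K` is a class of smooth
projective varieties which contains the point and is stable under products, together with their
Weil-etale motivic cohomology, `l`-adic cohomology for all `l`, cycle classes and the action of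
correspondences.
-/

set_option autoImplicit false

open CategoryTheory MonoidalCategory CartesianMonoidalCategory

universe x

namespace WL

open CHS

variable {V : Type} [Category.{0} V] [CartesianMonoidalCategory V]

/-- The exterior product `b × a`, as a correspondence from `X` to `X`. -/
def ext (T : ChowTheory.{0, 0, 0} V) {X : V} (a b : T.CH X) : T.CH (X ⊗ X) :=
  T.pull (fst X X) b * T.pull (snd X X) a

/-- The correspondences of degree `0` from `X` to `X` act on the vector space `M`. -/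
structure IsAction (T : ChowTheory.{0, 0, 0} V) (X : V) (R : Type) [Ring R] {M : Type}
    [AddCommGroup M] [Module R M] (act : T.CH (X ⊗ X) → M → M) : Prop where
  lin : ∀ a, IsLinearMap R (act a)
  add : ∀ a ∈ T.cyc (X ⊗ X) (T.dim X), ∀ b ∈ T.cyc (X ⊗ X) (T.dim X), ∀ x,
    act (a + b) x = act a x + act b x
  comp : ∀ a ∈ T.cyc (X ⊗ X) (T.dim X), ∀ b ∈ T.cyc (X ⊗ X) (T.dim X), ∀ x,
    act (T.cp a b) x = act b (act a x)
  one : ∀ x, act (T.graph (𝟙 X)) x = x

/-- The cycle classes of the variety `X`; `C` is its cohomology. -/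
structure CycleMap (T : ChowTheory.{0, 0, 0} V) (X : V) (C : Coh) where
  dim : T.dim X = C.d
  /-- the cycle class `CH^n(X)_ℚ → H^(2n)(X̄, ℚ(n))`: it is injective, and its image are the elements
  fixed by Frobenius -/
  cl : ∀ n : ℕ, T.CH X → Rat ((C.W n).C (2 * n))
  add : ∀ n, IsAdd (cl n)
  inj : ∀ n : ℕ, ∀ a ∈ T.cyc X n, cl n a = 0 → a = 0
  fix : ∀ n : ℕ, ∀ a ∈ T.cyc X n, Fixes ((C.W n).F (2 * n)) (cl n a)
  surj : ∀ n x, (C.W n).F (2 * n) x = x → ∃ a ∈ T.cyc X n, cl n a = one x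

/-- The cycle classes of the variety `X` and the action of correspondences on its cohomology `C`. -/
structure Corr {T : ChowTheory.{0, 0, 0} V} (K : Cohomology.{0, 0, 0, x} T) (X : V) (C : Coh)
    extends CycleMap T X C where
  /-- the action of correspondences on `H^i(X̄, ℚ(n))` -/
  act : ∀ (n : ℕ) (i : ℤ), T.CH (X ⊗ X) → Rat ((C.W n).C i) → Rat ((C.W n).C i)
  action : ∀ n i, IsAction T X ℚ (act n i)
  /-- the action of correspondences on `H^i(X̄, ℚ_ℓ(n))`, `ℓ ≠ p` -/
  actE : ∀ (ℓ : ℕ) [Fact ℓ.Prime] (n : ℕ) (i : ℤ), T.CH (X ⊗ X) →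
    RatE ((C.E ℓ n).C i) → RatE ((C.E ℓ n).C i)
  actionE : ∀ (ℓ : ℕ) [Fact ℓ.Prime], ℓ ≠ C.p → ∀ n i, IsAction T X ℚ_[ℓ] (actE ℓ n i)
  /-- the graph of Frobenius acts on the cohomology of weight `n` as `q ^ n F` -/
  frob : ∀ n i x, act n i (T.graph (T.Fr X)) (one x) = one (times (T.q ^ n) ((C.W n).F i x))
  frobE : ∀ (ℓ : ℕ) [Fact ℓ.Prime], ℓ ≠ C.p → ∀ n i x,
    actE ℓ n i (T.graph (T.Fr X)) (oneE x) = oneE (times (T.q ^ n) ((C.E ℓ n).F i x))
  /-- the exterior product of the cycles `a`, `b` of `z ∈ H^(2n)_W(X, ℤ(n))`, `g ∈ H^(2m)_W(X, ℤ(m))`,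
  acts on `H^(2n)(X̄, ℚ(n))` as `y ↦ ⟨y, g⟩ z`, and as `0` in other degrees -/
  ext_act : ∀ n m (e : n + m = C.d) z g, ∀ a ∈ T.cyc X n, ∀ b ∈ T.cyc X m,
    cl n a = one ((C.W n).res (2 * n) z) → cl m b = one ((C.W m).res (2 * m) g) →
    (∀ i : ℤ, i ≠ 2 * n → IsZero (act n i (ext T a b))) ∧
    ∀ y, act n (2 * n) (ext T a b) (one y) =
      one (times ((C.duality n m e).pair ((C.W n).inc (2 * n) y) g) ((C.W n).res (2 * n) z))
  ext_actE : ∀ (ℓ : ℕ) [Fact ℓ.Prime], ℓ ≠ C.p → ∀ n m (e : n + m = C.d) z g,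
    ∀ a ∈ T.cyc X n, ∀ b ∈ T.cyc X m,
    cl n a = one ((C.W n).res (2 * n) z) → cl m b = one ((C.W m).res (2 * m) g) →
    (∀ i : ℤ, i ≠ 2 * n → IsZero (actE ℓ n i (ext T a b))) ∧
    ∀ y, actE ℓ n (2 * n) (ext T a b) (oneE y) =
      oneE (mul ((C.duality n m e).pairE ℓ ((C.E ℓ n).inc (2 * n) y) ((C.c ℓ m).cH (2 * m) g))
        ((C.c ℓ n).cC (2 * n) ((C.W n).res (2 * n) z)))
  /-- the Lefschetz trace formula: homologically trivial correspondences are numerically trivial -/
  lefschetz : ∀ (ℓ : ℕ) [Fact ℓ.Prime], ℓ ≠ C.p → ∀ n, ∀ a ∈ T.cyc (X ⊗ X) (T.dim X),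
    (∀ i : ℤ, 0 ≤ i → i ≤ 2 * C.d → IsZero (actE ℓ n i a)) → T.NumTrivial a
  betti : ∀ (ℓ : ℕ) [Fact ℓ.Prime], ℓ ≠ C.p → ∀ n i,
    Module.finrank ℤ_[ℓ] ((C.E ℓ n).C i).T ≤ Module.finrank ℂ (K.H X)

/-- A class of smooth projective varieties over the finite field, which contains the point and is
stable under products, with Weil-etale motivic cohomology and `l`-adic cohomology. -/
structure Classes {T : ChowTheory.{0, 0, 0} V} (K : Cohomology.{0, 0, 0, x} T) where
  /-- the index set of the class -/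
  U : Type
  /-- the varieties of the class -/
  v : U → V
  point : ∃ X, v X = 𝟙_ V
  prod : ∀ X Y, ∃ Z, v Z = v X ⊗ v Y
  coh : U → Coh
  char : ∀ X Y, (coh X).p = (coh Y).p
  corr : ∀ X, Corr K (v X) (coh X)

end WL
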