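import Mathlib

/-!
# Weil-etale motivic cohomology: definitions (MP_cb388a_ag, helper51)

`Coh` collects, for a smooth projective variety `X` of dimension `d` over a finite field of
characteristic `p`, its Weil-etale motivic cohomology, its continuous `ℓ`-adic etale cohomology,
the comparison maps between them, and the theorems of the literature about them that are used.
-/

set_option autoImplicit false

open TensorProduct Polynomial

noncomputable section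

namespace WL

/-- An abelian group. -/
structure Grp where
  T : Type
  [g : AddCommGroup T]

/-- A module over the `ℓ`-adic integers. -/
structure Mdl (ℓ : ℕ) [Fact ℓ.Prime] where
  T : Type
  [g : AddCommGroup T]
  [m : Module ℤ_[ℓ] T]

attribute [instance] Grp.g Mdl.g Mdl.m

section

variable {A B C : Type} [AddCommGroup A] [AddCommGroup B] [AddCommGroup C]

/-- `f` is additive. -/
def IsAdd (f : A → B) : Prop := ∀ x y, f (x + y) = f x + f y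

/-- The kernel of `f` is the image of `F - 1`. -/
def KerIsImage (f : A → B) (F : A → A) : Prop := ∀ x, f x = 0 ↔ ∃ y, x = F y - y

/-- The image of `r` is the set of fixed points of `F`. -/
def ImageIsFixed (r : A → B) (F : B → B) : Prop := ∀ x, (∃ h, r h = x) ↔ F x = x

/-- The kernel of `g` is the image of `f`. -/
def IsExact (f : A → B) (g : B → C) : Prop := ∀ x, g x = 0 ↔ ∃ y, f y = x

/-- The multiple `n x`. -/
def times (n : ℤ) (x : A) : A := n • x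

/-- `x` is killed by a non-zero integer. -/
def Tors (x : A) : Prop := ∃ N : ℤ, N ≠ 0 ∧ N • x = 0

end

section

variable {ℓ : ℕ} [Fact ℓ.Prime] {M : Type} [AddCommGroup M] [Module ℤ_[ℓ] M]

/-- The multiple `a x`. -/
def mul (a : ℤ_[ℓ]) (x : M) : M := a • x

variable (ℓ)

/-- The characteristic polynomial of `F` on `M ⊗ ℚ_ℓ` is `P`. -/
def HasCharpoly (F : M → M) (P : ℚ[X]) : Prop :=
  ∀ (f : M →ₗ[ℤ_[ℓ]] M) [Module.Finite ℤ_[ℓ] M], (∀ x, f x = F x) →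
    (f.baseChange ℚ_[ℓ]).charpoly = P.map (algebraMap ℚ ℚ_[ℓ])

/-- The `ℤ_ℓ`-span of the image of `c` has torsion cokernel. -/
def TorsCoker {A : Type} (c : A → M) : Prop :=
  ∀ e : M, ∃ N : ℤ, N ≠ 0 ∧ N • e ∈ Submodule.span ℤ_[ℓ] (Set.range c)

end

/-! ### The cohomology of a smooth projective variety over a finite field -/

/-- The groups `C i = H^i(X̄_et, ℤ(n))` with the Frobenius `F`, the groups `H i = H^i_W(X, ℤ(n))`
and the short exact sequences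
`0 → H^(i-1)(X̄_et, ℤ(n))_F → H^i_W(X, ℤ(n)) → H^i(X̄_et, ℤ(n))^F → 0`.
Every class on `X̄` is defined over a finite extension of the finite field (`orbit`). -/
structure Weil where
  C : ℤ → Grp
  H : ℤ → Grp
  F : ∀ i, (C i).T → (C i).T
  inc : ∀ i, (C i).T → (H (i + 1)).T
  res : ∀ i, (H i).T → (C i).T
  add : ∀ i, IsAdd (F i) ∧ IsAdd (inc i) ∧ IsAdd (res i)
  exact : ∀ i, KerIsImage (inc i) (F i) ∧ IsExact (inc i) (res (i + 1)) ∧
    ImageIsFixed (res i) (F i)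
  orbit : ∀ i x, ∃ k : ℕ, 0 < k ∧ (F i)^[k] x = x

/-- The groups `C i = H^i(X̄_et, ℤ_ℓ(n))` with the Frobenius `F`, the groups
`H i = H^i(X_et, ℤ_ℓ(n))` and the short exact sequences
`0 → H^(i-1)(X̄_et, ℤ_ℓ(n))_F → H^i(X_et, ℤ_ℓ(n)) → H^i(X̄_et, ℤ_ℓ(n))^F → 0`. -/
structure Adic (ℓ : ℕ) [Fact ℓ.Prime] where
  C : ℤ → Mdl ℓ
  H : ℤ → Mdl ℓ
  F : ∀ i, (C i).T → (C i).T
  inc : ∀ i, (C i).T → (H (i + 1)).T
  res : ∀ i, (H i).T → (C i).T
  lin : ∀ i, IsLinearMap ℤ_[ℓ] (F i) ∧ IsLinearMap ℤ_[ℓ] (inc i) ∧ IsLinearMap ℤ_[ℓ] (res i)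
  exact : ∀ i, KerIsImage (inc i) (F i) ∧ IsExact (inc i) (res (i + 1)) ∧
    ImageIsFixed (res i) (F i)
  finite : ∀ i, Module.Finite ℤ_[ℓ] (H i).T

/-- The comparison maps from Weil-etale to `ℓ`-adic cohomology, and the cohomology `Q` of their
cone; it is uniquely `ℓ`-divisible since `H^i_W(X, ℤ/ℓ(n)) = H^i(X_et, ℤ/ℓ(n))`. -/
structure Comparison {ℓ : ℕ} [Fact ℓ.Prime] (W : Weil) (E : Adic ℓ) where
  /-- `H^i(X̄_et, ℤ(n)) → H^i(X̄_et, ℤ_ℓ(n))` -/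
  cC : ∀ i, (W.C i).T → (E.C i).T
  /-- `H^i_W(X, ℤ(n)) → H^i(X_et, ℤ_ℓ(n))` -/
  cH : ∀ i, (W.H i).T → (E.H i).T
  comm : ∀ i x, cH (i + 1) (W.inc i x) = E.inc i (cC i x)
  comm' : ∀ i x, E.res i (cH i x) = cC i (W.res i x)
  Q : ℤ → Grp
  q : ∀ i, (E.H i).T → (Q i).T
  δ : ∀ i, (Q i).T → (W.H (i + 1)).T
  add : ∀ i, IsAdd (cC i) ∧ IsAdd (cH i) ∧ IsAdd (q i) ∧ IsAdd (δ i)
  exact : ∀ i, IsExact (cH i) (q i) ∧ IsExact (q i) (δ i) ∧ IsExact (δ i) (cH (i + 1))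
  divisible : ∀ i, Function.Bijective (times (ℓ : ℤ) : (Q i).T → (Q i).T)

/-- The cohomology of a smooth projective variety `X` over a finite field: the groups and the
comparison maps for all weights `n` and all primes `ℓ`. -/
structure Groups where
  /-- the characteristic -/
  p : ℕ
  [prime : Fact p.Prime]
  /-- the dimension -/
  d : ℕ
  /-- Weil-etale motivic cohomology of weight `n` -/
  W : ℕ → Weil
  /-- `ℓ`-adic etale cohomology of weight `n` -/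
  E : ∀ (ℓ : ℕ) [Fact ℓ.Prime], ℕ → Adic ℓ
  c : ∀ (ℓ : ℕ) [Fact ℓ.Prime] (n : ℕ), Comparison (W n) (E ℓ n)

attribute [instance] Groups.prime

/-- The characteristic polynomials of Frobenius, and the finiteness theorems. -/
structure Weights (X : Groups) where
  /-- Deligne: the characteristic polynomial of Frobenius on `H^i(X̄, ℚ_ℓ(n))` is rational and
  independent of `ℓ ≠ p`, and `1` is a root only for `i = 2 n ≤ 2 d` -/
  P : ℕ → ℤ → ℚ[X]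
  charpoly : ∀ (ℓ : ℕ) [Fact ℓ.Prime], ℓ ≠ X.p → ∀ n i, HasCharpoly ℓ ((X.E ℓ n).F i) (P n i)
  P_one : ∀ (n : ℕ) (i : ℤ), i ≠ 2 * n → (P n i).eval 1 ≠ 0
  P_big : ∀ n : ℕ, X.d < n → (P n (2 * n)).eval 1 ≠ 0
  /-- finiteness of `ℓ`-adic cohomology of `X̄`, `ℓ ≠ p` -/
  finite : ∀ (ℓ : ℕ) [Fact ℓ.Prime], ℓ ≠ X.p → ∀ n i, Module.Finite ℤ_[ℓ] ((X.E ℓ n).C i).T
  /-- Gabber: no torsion for large `ℓ` -/
  gabber : ∀ n i, ∃ m, ∀ (ℓ : ℕ) [Fact ℓ.Prime], m < ℓ → ∀ x : ((X.E ℓ n).C i).T, Tors x → x = 0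
  /-- `p`-adic cohomology: torsion outside the degrees `2 n` and `2 n + 1` -/
  tors_p : ∀ (n : ℕ) (i : ℤ), i ≠ 2 * n → i ≠ 2 * n + 1 → ∀ x : ((X.E X.p n).H i).T, Tors x
  rank_p : ∀ (n : ℕ) (i : ℤ), i = 2 * n ∨ i = 2 * n + 1 →
    Module.finrank ℤ_[X.p] ((X.E X.p n).H i).T ≤ (P n (2 * n)).rootMultiplicity 1
  /-- `H^0(X, ℚ_ℓ)` is spanned by the image of `H^0_W(X, ℤ(0))` (the constant functions) -/
  deg_zero : ∀ (ℓ : ℕ) [Fact ℓ.Prime], TorsCoker ℓ ((X.c ℓ 0).cH 0)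

/-- Cup products and Poincare duality for the weights `n + m = d`. -/
structure Duality (X : Groups) (n m : ℕ) where
  /-- cup product `H^(2n+1)_W(X, ℤ(n)) × H^(2m)_W(X, ℤ(m)) → H^(2d+1)_W(X, ℤ(d)) → ℤ` -/
  pair : ((X.W n).H (2 * n + 1)).T → ((X.W m).H (2 * m)).T → ℤ
  add : ∀ y, IsAdd (pair · y)
  add' : ∀ x, IsAdd (pair x)
  /-- cup product `H^(2n+1)(X, ℤ_ℓ(n)) × H^(2m)(X, ℤ_ℓ(m)) → H^(2d+1)(X, ℤ_ℓ(d)) → ℤ_ℓ` -/
  pairE : ∀ (ℓ : ℕ) [Fact ℓ.Prime],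
    ((X.E ℓ n).H (2 * n + 1)).T → ((X.E ℓ m).H (2 * m)).T → ℤ_[ℓ]
  lin : ∀ (ℓ : ℕ) [Fact ℓ.Prime] y, IsLinearMap ℤ_[ℓ] (pairE ℓ · y)
  lin' : ∀ (ℓ : ℕ) [Fact ℓ.Prime] x, IsLinearMap ℤ_[ℓ] (pairE ℓ x)
  comm : ∀ (ℓ : ℕ) [Fact ℓ.Prime] x y,
    pairE ℓ ((X.c ℓ n).cH _ x) ((X.c ℓ m).cH _ y) = (pair x y : ℤ)
  /-- Poincare duality -/
  ker : ∀ (ℓ : ℕ) [Fact ℓ.Prime], ℓ ≠ X.p → ∀ x, (∀ y, pairE ℓ x y = 0) → Tors x

/-- Hard Lefschetz for the weights `n + m = d`, `n ≤ m`. -/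
structure Lefschetz (X : Groups) (n m : ℕ) where
  /-- product with the `(m-n)`-th power of a hyperplane class -/
  lef : ((X.W n).H (2 * n)).T → ((X.W m).H (2 * m)).T
  add : IsAdd lef
  lefE : ∀ (ℓ : ℕ) [Fact ℓ.Prime], ((X.E ℓ n).H (2 * n)).T → ((X.E ℓ m).H (2 * m)).T
  lin : ∀ (ℓ : ℕ) [Fact ℓ.Prime], IsLinearMap ℤ_[ℓ] (lefE ℓ)
  comm : ∀ (ℓ : ℕ) [Fact ℓ.Prime] x, lefE ℓ ((X.c ℓ n).cH _ x) = (X.c ℓ m).cH _ (lef x)
  coker : ∀ (ℓ : ℕ) [Fact ℓ.Prime], ℓ ≠ X.p → ∀ y, ∃ N, N ≠ 0 ∧ ∃ x, lefE ℓ x = times N y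

/-- The cohomology of a smooth projective variety over a finite field. -/
structure Coh extends Groups where
  weights : Weights toGroups
  duality : ∀ n m : ℕ, n + m = d → Duality toGroups n m
  lefschetz : ∀ n m : ℕ, n + m = d → n ≤ m → Lefschetz toGroups n m

/-- `L^n(X)`: all groups `H^i_W(X, ℤ(n))` are finitely generated. -/
def Groups.L (X : Groups) (n : ℕ) : Prop := ∀ i, AddGroup.FG ((X.W n).H i).T

/-! ### Rational coefficients -/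

section

/-- The vector space `ℚ ⊗ A`. -/
def Rat (A : Grp) : Type := ℚ ⊗[ℤ] A.T

instance (A : Grp) : AddCommGroup (Rat A) := TensorProduct.addCommGroup (R := ℤ)

instance (A : Grp) : Module ℚ (Rat A) := TensorProduct.leftModule

variable {A : Grp}

/-- The element `1 ⊗ x` of `ℚ ⊗ A`. -/
def one (x : A.T) : Rat A := (1 : ℚ) ⊗ₜ[ℤ] x

/-- The element `t` of `ℚ ⊗ A` is fixed by `f : A → A`. -/
def Fixes (f : A.T → A.T) (t : Rat A) : Prop :=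
  ∀ (k : ℤ) (x : A.T), k • t = one x → Tors (f x - x)

end

section

variable {ℓ : ℕ} [Fact ℓ.Prime]

/-- The vector space `ℚ_ℓ ⊗ M`. -/
def RatE (M : Mdl ℓ) : Type := ℚ_[ℓ] ⊗[ℤ_[ℓ]] M.T

instance (M : Mdl ℓ) : AddCommGroup (RatE M) := TensorProduct.addCommGroup (R := ℤ_[ℓ])

instance (M : Mdl ℓ) : Module ℚ_[ℓ] (RatE M) := TensorProduct.leftModule

/-- The element `1 ⊗ x` of `ℚ_ℓ ⊗ M`. -/
def oneE {M : Mdl ℓ} (x : M.T) : RatE M := (1 : ℚ_[ℓ]) ⊗ₜ[ℤ_[ℓ]] x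

end

/-- `f` is zero. -/
def IsZero {A : Type} [AddCommGroup A] (f : A → A) : Prop := ∀ x, f x = 0

end WL

end
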