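import Pool.Agent.WL.ChowConv
import Pool.Agent.WAG.AConv
import Pool.Agent.WAG.RConv

/-!
# Assembly (MP_cb388a_ag; helper51): Chow motives and Weil-etale cohomology, short form
-/

set_option autoImplicit false

open CategoryTheory MonoidalCategory Limits Polynomial Filter

universe x

namespace Pool.Agent.WAG

/-- finite generation of Weil-etale cohomology -/
theorem fgW {V : Type} [Category.{0} V] [CartesianMonoidalCategory V]
    {T : CHS.ChowTheory.{0, 0, 0} V} {K : CHS.Cohomology.{0, 0, 0, x} T}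
    (D : CHS.Raw.AbelianMotives K) (G : WL.Classes K) (Λ : ℂ → Prop)
    (hPar : AlmostAll.Par T.q Λ) (hA : ∀ z, Λ z → ‖z‖ ^ 2 = (T.q : ℝ)) (X : G.U)
    (hX : CHS.Raw.GenBy (D.Gn Λ) (CHS.Mot.h T (G.v X))) (n : ℕ) : (G.coh X).L n := by
  have h1 : Pool.Agent.TJ2.Gen ((ofChow D.conv).Gn Λ) (CHM.Mot.h T.toOld (G.v X) 0) :=
    (gen_iff D.conv Λ _ (gn_iff t_SCH D.conv Λ) _).1 (CHS.old_genBy (D.conv.Gn Λ) hX.conv)
  exact fgE (CHM.Mot T.toOld) K.toOld.frobenius T.q T.one_lt (ofChow D.conv) Λ hPar hA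
    G.chow rfl G.lef X h1 n

end Pool.Agent.WAG
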